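import Pool.Agent.J4H23.MX.Fin2

/-!
# Crossing-change noise in braid words: Vassiliev invariants of linear order detect it

Diagrams (starting library `Pool.Agent.H891R2.Jones.Diagram`): `Outer m` (the part of an oriented link diagram
outside a box through which `m` strands run, with arbitrary directions; `P` is the set of its marked
points, `crossings` the list of its crossings), `Outer.push` (draws one crossing in the box) and `Outer.close`
(fills the rest of the box with vertical strands).  `Pool.Agent.W639.RB.Defs`: `Letter m = Bool × Fin (m - 1)`: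
the letters of the braid group on `m` strands, `(true, a)` is the positive and `(false, a)` the negative
crossing in the gap `a`.  `Pool.Agent.W705.JR.Vas`: `dia O w` is the diagram obtained by drawing the word
`w : Fin n → Letter m` in the box of `O`.

Vassiliev invariants (starting library `Pool.Agent.H832R3.VJ.Defs`): `Dia` (an oriented diagram `D` with the finite
set `P` of its marked points), `Separated d X Y` (some integer valued Vassiliev invariant of oriented links of
order at most `d` has different values on `X` and `Y`).

`Pool.Agent.J4H23.MX.Fin`: `Adj c j k`: the letter `k` is the next one after the letter `j`, and the gaps `c j` and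
`c k` are neighbouring; `JJ c`: the set of all `j` such that `Adj c j k` for some `k`.

Proof.  The starting result `MP_42db45_gt.CrossingChanges` (fair signs in a set `S` of crossings, the other crossings
fixed: every value of the normalised bracket has probability at most `C r ^ s(S)`, `s(S)` the number of the pairs
of consecutive neighbouring crossings in `S`) is applied conditionally: a sign which is positive with probability `p i`
is fair with probability `2 min (p i) (1 - p i)` and constant otherwise.  The mean of `r ^ s(S)` is computed on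
the even and on the odd pairs, which are independent.
-/

set_option autoImplicit false

namespace Pool.Agent.Results.MP_5f6b43_gt.SmoothedBraidWords

open Finset LaurentPolynomial Pool.Agent.H891R2.Jones Pool.Agent.W639.RB Pool.Agent.W705.JR Pool.Agent.H832R3.VJ 
  Pool.Agent.J4H23.MX Pool.Agent.J4H23.SD

theorem nsep {m n : ℕ} (O : Outer m) (w : Fin n → Letter m) (X : Dia) (d : ℕ)
    (hd : 2 * (O.crossings.length + 2 * Nat.card O.P + (2 * m + 1) * n + X.D.crossings.length + 2 * Nat.card X.P) < d) 
    (h : ¬ Separated d (dia O w) X) : (diagram O w).fPoly = X.D.fPoly := by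
  by_contra hne
  apply h
  refine sep_mono ?_ (sep_of_ne (dia O w) X hne)
  have h1 : size X = X.D.crossings.length + 2 * Nat.card X.P := rfl
  rw [size_dia, h1]
  omega

theorem weight_nonneg {n : ℕ} (p : Fin n → ℝ) (hp : ∀ i, 0 ≤ p i ∧ p i ≤ 1) (s : Fin n → Bool) : 
    (0:ℝ) ≤ ∏ i, (if s i then p i else 1 - p i) := Finset.prod_nonneg fun i _ => by
  have := hp i
  split_ifs <;> linarith [this.1, this.2]

open Classical in
/-- Let `m ≥ 3`.  Draw a braid word of length `n` on `m` strands in the box of any oriented link diagram (outside `O`).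
The gaps `c i` of its crossings are ARBITRARY, the signs are independent: the crossing `i` is positive with
probability `p i`.  (So for `p i = q i` or `1 - q i` every crossing of a given word is changed with
probability `q i`.)  Put `e i = min (p i) (1 - p i)`.

1. There are `C` and `a > 0`, depending only on `m`, such that for every link diagram `X`, for instance
   of the unknot, the random diagram is not separated from `X` by Vassiliev invariants of order at most `d` with
   probability at most `C exp (-a ∑ e j e (j+1))`, the sum over all pairs of consecutive crossings at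
   neighbouring places, if `d > 2 (c + 2 p + (2m+1) n + c' + 2 p')`, where `c`, `p`, `c'`, `p'` are the numbers of the
   crossings and of the marked points of `O` and of `X`.
2. For all `κ` and `ε > 0` there are `δ > 0`, `C` and `r < 1` such that: if `e i ≥ ε` for all `i`, `s` is the number
   of these pairs, `c + p + n ≤ κ (s + 1)` and `d > 2 (c + 2 p + (2m+3) n)`, then with probability at least
   `1 - C r ^ s` the random diagram is separated by Vassiliev invariants of order at most `d` from EVERY link
   diagram `X` with `c' + p' ≤ δ s`. -/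
theorem result : ∀ m : ℕ, 3 ≤ m → 
    (∃ C a : ℝ, 0 < a ∧ ∀ (O : Outer m) (n : ℕ) (c : Fin n → Fin (m-1)) (p : Fin n → ℝ) (X : Dia) (d : ℕ), 
      (∀ i, 0 ≤ p i ∧ p i ≤ 1) → 
      2 * (O.crossings.length + 2 * Nat.card O.P + (2 * m + 1) * n + X.D.crossings.length + 
        2 * Nat.card X.P) < d → 
      ∑ s : Fin n → Bool, (if ¬ Separated d (dia O (fun i => ((s i, c i) : Letter m))) X then 
        ∏ i, (if s i then p i else 1 - p i) else 0) ≤ 
        C * Real.exp (-(a * ∑ j, ∑ k, if Adj c j k then min (p j) (1 - p j) * min (p k) (1 - p k) else 0))) ∧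
    (∀ κ ε : ℝ, 0 < ε → ∃ δ C r : ℝ, 0 < δ ∧ 0 < r ∧ r < 1 ∧ 
      ∀ (O : Outer m) (n : ℕ) (c : Fin n → Fin (m-1)) (p : Fin n → ℝ) (d : ℕ), (∀ i, ε ≤ p i ∧ p i ≤ 1 - ε) → 
      ((O.crossings.length + Nat.card O.P + n : ℕ) : ℝ) ≤ κ * ((JJ c).card + 1) → 
      2 * (O.crossings.length + 2 * Nat.card O.P + (2 * m + 3) * n) < d → 
      ∑ s : Fin n → Bool, (if (∃ X : Dia, ((X.D.crossings.length + Nat.card X.P : ℕ) : ℝ) ≤ δ * (JJ c).card ∧ 
          ¬ Separated d (dia O (fun i => ((s i, c i) : Letter m))) X) then 
        ∏ i, (if s i then p i else 1 - p i) else 0) ≤ C * r ^ (JJ c).card) := by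
  intro m hm
  refine ⟨?_, ?_⟩
  · obtain ⟨C, a, -, ha, h⟩ := braids t_ONE t_MIX m hm
    refine ⟨C, a, ha, fun O n c p X d hp hd => ?_⟩
    refine le_trans (Finset.sum_le_sum fun s _ => ?_) (h 2 le_rfl O X.D.fPoly n c p hp)
    by_cases hw : Separated d (dia O (fun i => ((s i, c i) : Letter m))) X
    · rw [if_neg (not_not.2 hw)]
      split_ifs
      · exact weight_nonneg p hp s
      · exact le_rfl
    · rw [if_pos hw, if_pos (by rw [nsep O _ X d hd hw, sub_self]; exact dvd_zero _)]
  · intro κ ε hε
    obtain ⟨δ, C, r, hδ, hδ1, hr0, hr1, h⟩ := short m hm κ ε hε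
    refine ⟨δ, C, r, hδ, hr0, hr1, fun O n c p d hp hO hd => ?_⟩
    have hp01 : ∀ i, 0 ≤ p i ∧ p i ≤ 1 := fun i => ⟨by linarith [(hp i).1], by linarith [(hp i).2]⟩
    have hO' : ((Pool.Agent.Y463.MP.osize O : ℕ) + n : ℝ) ≤ κ * ((JJ c).card + 1) := by
      have e : ((Pool.Agent.Y463.MP.osize O : ℕ) : ℝ) = (O.crossings.length : ℝ) + Nat.card O.P := by
        unfold Pool.Agent.Y463.MP.osize
        push_cast
        ring
      rw [e]
      push_cast at hO
      exact hO
    refine le_trans (Finset.sum_le_sum fun s _ => ?_) (h O n c p hp hO')
    by_cases hw : ∃ X : Dia, ((X.D.crossings.length + Nat.card X.P : ℕ) : ℝ) ≤ δ * (JJ c).card ∧ 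
          ¬ Separated d (dia O (fun i => ((s i, c i) : Letter m))) X
    · rw [if_pos hw, if_pos]
      obtain ⟨X, hX1, hX2⟩ := hw
      refine ⟨X.P, X.fin, X.D, hX1, ?_⟩
      have h1 : ((JJ c).card : ℝ) ≤ n := by
        have : (JJ c).card ≤ n := by
          have := Finset.card_le_univ (JJ c)
          simpa using this
        exact_mod_cast this
      have h2 : ((X.D.crossings.length + Nat.card X.P : ℕ) : ℝ) ≤ n := by
        have h3 : δ * ((JJ c).card : ℝ) ≤ 1 * n := mul_le_mul hδ1 h1 (by positivity) zero_le_one
        linarith
      have h4 : X.D.crossings.length + Nat.card X.P ≤ n := by exact_mod_cast h2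
      have h5 : (2 * m + 3) * n = (2 * m + 1) * n + 2 * n := by ring
      rw [nsep O _ X d (by rw [h5] at hd; omega) hX2, sub_self]
      exact dvd_zero _
    · rw [if_neg hw]
      split_ifs
      · exact weight_nonneg p hp01 s
      · exact le_rfl

end Pool.Agent.Results.MP_5f6b43_gt.SmoothedBraidWords
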