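import Pool.Agent.J4H23.SD.Main
import Pool.Agent.J4H2.SD.Tw

/-!
# Smoothed analysis: Vassiliev invariants of order two and random crossing changes in an arbitrary diagram

Every oriented knot diagram with `n ≥ 1` crossings is `G.diagram s` for its shadow `G : Shadow n` (a Gauss code) and
some `s : Fin n → Bool` (`s i = true`: the crossing `i` is positive).  The crossings are random and independent,
`p i` is the probability of `s i = true`.  If `s₀` is ANY diagram with the shadow `G` and every crossing of it is
changed with probability `ε ≤ 1/2`, independently, then `p i = 1 - ε` if `s₀ i = true` and `p i = ε` otherwise, so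
that `ε ≤ p i ≤ 1 - ε`.

Starting library: `Pool.Agent.R811.Cross.Defs`, `Pool.Agent.R811.Cross.Bigon` (`Shadow n`, `G.diagram s`,
`G.Interlaced i j`, `G.Antiparallel i j`), `Pool.Agent.R811.VS.Choices` (`dia G s`: the diagram `G.diagram s` with its
set of marked points), `Pool.Agent.H832R3.VJ.Defs` (`Dia`, `Separated d X Y`: some integer valued Vassiliev invariant
of oriented links of order at most `d` has different values on `X` and `Y`).

Proof.  The derivatives at `1` of the Jones polynomial give an invariant of order two which is, as a function of the
signs, a quadratic polynomial whose mixed coefficients do not vanish for interlaced double points (starting result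
`CrossingChoices`, which treats uniformly distributed signs).  A product probability is a mixture: a random set of
crossings (`i` with probability `2 q i`) gets uniformly distributed signs, the others have fixed signs.  Given this
set, the function is still quadratic; the mean of `1 / (1 + N)`, `N` the number of the pairs in the random set, is at
most the inverse of the mean of `N`.  For the second part, a maximal family of disjoint interlaced pairs has at least
`t / 10` pairs: the other chords of the Gauss diagram do not cross each other, and two of them with the same
position relative to the pairs are joined by a chain of antiparallel bigons.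
-/

set_option autoImplicit false

namespace Pool.Agent.Results.MP_5f6b43_gt.SmoothedDiagrams

open Finset Pool.Agent.H832R3.VJ Pool.Agent.R811.Cross Pool.Agent.R811.VS Pool.Agent.J4H23.SD

/-- Let `G` be the shadow of an oriented knot diagram with `n` double points, let `X` be any link diagram, for
instance of the unknot, and let the signs of the crossings be independent, positive with probabilities
`p i ∈ [q i, 1 - q i]`.  Let `P` be the probability that the diagram is not separated from `X` by Vassiliev invariants
of order at most two.

* For all pairwise disjoint pairs `u k`, `w k` of interlaced double points `P ^ 4 * ∑ k, q (u k) * q (w k) ≤ 41`.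
* If every double point is interlaced with another one (there is no nugatory crossing) and `q i ≥ ε` for all `i`,
  then `P ^ 4 * ε ^ 2 * t ≤ 410`, where `t` is the number of the classes of the double points under the
  equivalence relation generated by antiparallel bigons (`T`: any set with at most one element of each class). -/
theorem result :
    ∀ (n : ℕ) (G : Shadow n) (q p : Fin n → ℝ), (∀ i, 0 ≤ q i) → (∀ i, q i ≤ p i ∧ p i ≤ 1 - q i) →
      ∀ X : Dia,
      (∀ (ν : ℕ) (u w : Fin ν → Fin n), Function.Injective (Sum.elim u w) →
        (∀ k, G.Interlaced (u k) (w k)) →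
        (∑ k, q (u k) * q (w k)) * prob p {s | ¬ Separated 2 (dia G s) X} ^ 4 ≤ 41) ∧
      ((∀ i, ∃ j, G.Interlaced i j) → ∀ T : Finset (Fin n),
        (∀ i ∈ T, ∀ j ∈ T, Relation.EqvGen G.Antiparallel i j → i = j) →
        ∀ ε : ℝ, 0 ≤ ε → (∀ i, ε ≤ q i) →
        ε ^ 2 * T.card * prob p {s | ¬ Separated 2 (dia G s) X} ^ 4 ≤ 410) := by
  intro n G q p hq hp X
  refine ⟨fun ν u w hinj h => main G q p hq hp X u w hinj h, ?_⟩
  intro hred T hT ε hε hεq
  obtain ⟨ν, u, w, hinj, h, hcard⟩ := Pool.Agent.J4H2.SD.t_TW G hred T hT
  have h1 := main G q p hq hp X u w hinj h
  have h2 : ε ^ 2 * ν ≤ ∑ k, q (u k) * q (w k) := by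
    calc ε ^ 2 * ν = ∑ _k : Fin ν, ε * ε := by
          rw [Finset.sum_const, Finset.card_univ, Fintype.card_fin, nsmul_eq_mul]; ring
      _ ≤ _ := Finset.sum_le_sum fun k _ => mul_le_mul (hεq _) (hεq _) hε (hq _)
  have h3 : (T.card : ℝ) ≤ 10 * ν := by exact_mod_cast hcard
  set P := prob p {s | ¬ Separated 2 (dia G s) X} with hP
  have hP4 : 0 ≤ P ^ 4 := by positivity
  calc ε ^ 2 * T.card * P ^ 4 ≤ ε ^ 2 * (10 * ν) * P ^ 4 :=
        mul_le_mul_of_nonneg_right (mul_le_mul_of_nonneg_left h3 (sq_nonneg ε)) hP4
    _ = 10 * ((ε ^ 2 * ν) * P ^ 4) := by ring
    _ ≤ 10 * ((∑ k, q (u k) * q (w k)) * P ^ 4) := by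
        have := mul_le_mul_of_nonneg_right h2 hP4
        linarith
    _ ≤ 410 := by linarith

end Pool.Agent.Results.MP_5f6b43_gt.SmoothedDiagrams
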